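import Pool.Agent.Q37.DN.Min

/-! # A minimal reduction `I` of `𝔪` with `𝔡₃(I) ≠ r_I(𝔪)` in a 2-dimensional CM local ring -/

set_option autoImplicit false

namespace Pool.Agent.Results.MP_c61c44_al.DaoNeReductionNumber

open IsLocalRing Q37.DN

universe u

/-- For every infinite field `k` there is a two-dimensional Cohen–Macaulay local ring `R` with
infinite residue field and a minimal reduction `I` of its maximal ideal with reduction number `5`
and third Dao number at least `6`. -/
theorem result (k : Type u) [Field k] [Infinite k] :
    ∃ (R : Type u) (_ : CommRing R) (_ : IsLocalRing R),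
      IsCohenMacaulayLocalRing R ∧ ringKrullDim R = 2 ∧ Infinite (ResidueField R) ∧
      Nonempty (k →+* R) ∧
      ∃ I : Ideal R, IsMinimalReduction I ∧ redNumber I = 5 ∧ 6 ≤ thirdDao I ∧
        thirdDao I ≠ redNumber I := by
  refine ⟨Localization.AtPrime (mm k), inferInstance, inferInstance, cmS k _, dimS k _,
    inf_res k _, ⟨cst k _⟩, II k _, min_red k _, red_eq k _, dao_ge k _, ?_⟩
  intro h
  have h6 := dao_ge k (Localization.AtPrime (mm k))
  rw [h, red_eq] at h6
  exact absurd h6 (by decide)

end Pool.Agent.Results.MP_c61c44_al.DaoNeReductionNumber
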